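import Pool.Agent.helper7.EP.SpecH

/-!
# Project ep: (MP_ebc808_nt), module EVM: evaluation of power series
-/

set_option autoImplicit false

open Finset PowerSeries

noncomputable section

namespace Pool.Agent.EP

theorem EVM_mul (φ ψ : ℤ⟦X⟧) (q u v : ℂ) (h1 : Evq φ q u) (h2 : Evq ψ q v) :
    Evq (φ * ψ) q (u * v) := by
  unfold Evq at *
  have n1 := h1.summable.norm
  have n2 := h2.summable.norm
  have hs := (summable_norm_sum_mul_antidiagonal_of_summable_norm n1 n2).of_norm.hasSum
  rw [← tsum_mul_tsum_eq_tsum_sum_antidiagonal_of_summable_norm n1 n2, h1.tsum_eq,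
    h2.tsum_eq] at hs
  have he : (fun n : ℕ => ((PowerSeries.coeff n (φ * ψ) : ℤ) : ℂ) * q ^ n) =
      fun n : ℕ => ∑ kl ∈ Finset.HasAntidiagonal.antidiagonal n, ((PowerSeries.coeff kl.1 φ : ℤ) : ℂ) * q ^ kl.1 *
        (((PowerSeries.coeff kl.2 ψ : ℤ) : ℂ) * q ^ kl.2) := by
    funext n
    rw [PowerSeries.coeff_mul]
    push_cast
    rw [Finset.sum_mul]
    refine Finset.sum_congr rfl fun p hp => ?_
    rw [← Finset.HasAntidiagonal.mem_antidiagonal.1 hp, pow_add]
    ring
  rw [he]
  exact hs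

theorem EVM_const (k : ℤ) (q : ℂ) : Evq (PowerSeries.C k) q k := by
  unfold Evq
  have h := hasSum_single (f := fun n : ℕ => ((PowerSeries.coeff n (PowerSeries.C k) : ℤ) : ℂ) *
    q ^ n) 0 (by
      intro n hn
      rw [PowerSeries.coeff_C, if_neg hn]
      simp)
  simpa using h

theorem EVM : EVM_stmt := by
  refine ⟨EVM_mul, ?_, ?_, EVM_const⟩
  · intro φ q u k h
    induction k with
    | zero =>
      have h0 := EVM_const 1 q
      simpa using h0
    | succ k ih =>
      rw [pow_succ, pow_succ]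
      exact EVM_mul _ _ _ _ _ ih h
  · intro φ ψ q u v h1 h2
    unfold Evq at *
    have h := h1.add h2
    have he : (fun n : ℕ => ((PowerSeries.coeff n (φ + ψ) : ℤ) : ℂ) * q ^ n) =
        fun n : ℕ => ((PowerSeries.coeff n φ : ℤ) : ℂ) * q ^ n +
          ((PowerSeries.coeff n ψ : ℤ) : ℂ) * q ^ n := by
      funext n
      rw [map_add]
      push_cast
      ring
    rw [he]
    exact h

end Pool.Agent.EP
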