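import Pool.Agent.helper81.EP.SpecC

/-!
# Project ep (MP_ebc808_nt), module CP: primes in a class modulo 24
-/

set_option autoImplicit false

open Finset
open scoped Real

noncomputable section

namespace Pool.Agent.EP

theorem CP_maps (z : ℕ) (hz : 3 ≤ z) :
    ∀ p ∈ {p ∈ Ioc z (2 * z) | p.Prime}, p % 24 ∈ ({1, 5, 7, 11, 13, 17, 19, 23} : Finset ℕ) := by
  intro p hp
  rw [mem_filter, mem_Ioc] at hp
  obtain ⟨⟨h1, -⟩, h2⟩ := hp
  have h3 : ¬ 2 ∣ p := by
    intro h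
    rcases (Nat.prime_dvd_prime_iff_eq Nat.prime_two h2).1 h with rfl
    omega
  have h4 : ¬ 3 ∣ p := by
    intro h
    rcases (Nat.prime_dvd_prime_iff_eq Nat.prime_three h2).1 h with rfl
    omega
  simp only [mem_insert, mem_singleton]
  omega

theorem CP : CP_stmt := by
  intro δ hδ
  have h0 : 0 < min δ (1 / 2) := lt_min hδ (by norm_num)
  have h1 : min δ (1 / 2) < 1 := lt_of_le_of_lt (min_le_right _ _) (by norm_num)
  have hev := (Pool.Agent.helper86.primesIn_ge h0 h1).and (Filter.eventually_ge_atTop 3)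
  obtain ⟨z₀, hz₀⟩ := Filter.eventually_atTop.1 hev
  refine ⟨z₀, fun z hz => ?_⟩
  obtain ⟨h2, h3⟩ := hz₀ z hz
  by_contra hcon
  push Not at hcon
  have hc : ∀ c ∈ ({1, 5, 7, 11, 13, 17, 19, 23} : Finset ℕ),
      (#{p ∈ {p ∈ Ioc z (2 * z) | p.Prime} | p % 24 = c} : ℝ) < (z : ℝ) ^ (1 - δ) / 8 := by
    intro c hc
    rw [filter_filter]
    refine hcon c ?_
    revert hc
    revert c
    decide
  have hsum := card_eq_sum_card_fiberwise (CP_maps z h3)
  have h4 : (#{p ∈ Ioc z (2 * z) | p.Prime} : ℝ) < (z : ℝ) ^ (1 - δ) := by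
    rw [hsum]
    push_cast
    refine (sum_lt_sum_of_nonempty ⟨1, by simp⟩ hc).trans_le ?_
    rw [sum_const]
    have : #({1, 5, 7, 11, 13, 17, 19, 23} : Finset ℕ) = 8 := by decide
    rw [this, nsmul_eq_mul]
    push_cast
    linarith
  have h5 : (z : ℝ) ^ (1 - δ) ≤ (z : ℝ) ^ (1 - min δ (1 / 2)) :=
    Real.rpow_le_rpow_of_exponent_le (by exact_mod_cast (by omega : 1 ≤ z))
      (by linarith [min_le_left δ (1 / 2)])
  have h6 : ((Pool.Agent.helper86.primesIn z : ℕ) : ℝ) = (#{p ∈ Ioc z (2 * z) | p.Prime} : ℝ) := rfl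
  rw [h6] at h2
  linarith

end Pool.Agent.EP
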